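import Mathlib
import Pool.Agent.Lib.MP_424d38_an.ES.AllES

/-!
# MP_424d38_an: blow-up faster than `1/(T-t)` for the hyperbolic cubic Schrödinger equation, `d = 2`

For every `H¹` solution on `[0,T)`, `0 < T < ∞`, of `i u_t + u_xx - u_zz + |u|² u = 0` in the plane whose gradient is
unbounded on `[0,T)`: for `s = 1` or `s = -1`, for every `K` there is `t₀ < T` with
`‖(∂_x + s ∂_z) u(t)‖ ≥ K/(T-t₀)` for all `t ∈ [t₀,T)`.
-/

set_option autoImplicit false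

open MeasureTheory Filter Topology Set

namespace Pool.Agent.Results.MP_424d38_an.BlowupRate

/-- The plane; coordinate `0` is `x` (the transversal variable), coordinate `1` is `z`. -/
abbrev Plane := EuclideanSpace ℝ (Fin 2)

/-- `u ∈ C([0,T); H¹(ℝ²))` with weak partial derivatives `G t 0 = ∂_x u(t)`, `G t 1 = ∂_z u(t)`, and
`i ∂_t u + (∂_x² - ∂_z²) u + |u|² u = 0` weakly on `(0,T) × ℝ²`. -/
structure IsSolution (T : ℝ) (u : ℝ → Plane → ℂ) (G : ℝ → Fin 2 → Plane → ℂ) : Prop where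
  memu : ∀ t ∈ Ico 0 T, MemLp (u t) 2 volume
  memG : ∀ t ∈ Ico 0 T, ∀ j, MemLp (G t j) 2 volume
  weak : ∀ t ∈ Ico 0 T, ∀ j, ∀ ψ : Plane → ℂ,
    ContDiff ℝ ((⊤ : ℕ∞) : WithTop ℕ∞) ψ → HasCompactSupport ψ →
    ∫ x, u t x * fderiv ℝ ψ x (EuclideanSpace.single j (1 : ℝ)) = -∫ x, G t j x * ψ x
  contu : ∀ t ∈ Ico 0 T, Tendsto (fun s : ℝ => eLpNorm (u s - u t) 2 volume) (𝓝[Ico 0 T] t) (𝓝 0)
  contG : ∀ t ∈ Ico 0 T, ∀ j,
    Tendsto (fun s : ℝ => eLpNorm (G s j - G t j) 2 volume) (𝓝[Ico 0 T] t) (𝓝 0)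
  eqn : ∀ φ : ℝ → Plane → ℂ, ContDiff ℝ ((⊤ : ℕ∞) : WithTop ℕ∞) (Function.uncurry φ) →
    HasCompactSupport (Function.uncurry φ) → tsupport (Function.uncurry φ) ⊆ Ioo 0 T ×ˢ univ →
    ∫ t, ∫ x,
      (-Complex.I * u t x * deriv (fun s : ℝ => φ s x) t
       + u t x * ∑ j : Fin 2, (if (j : ℕ) + 1 = 2 then (-1 : ℂ) else 1) *
           fderiv ℝ (fun y => fderiv ℝ (φ t) y (EuclideanSpace.single j (1 : ℝ))) x
             (EuclideanSpace.single j (1 : ℝ))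
       + ((‖u t x‖ ^ 2 : ℝ) : ℂ) * u t x * φ t x) = 0

/-- The `L²(ℝ²)` norm. -/
noncomputable def l2norm (f : Plane → ℂ) : ℝ := (eLpNorm f 2 volume).toReal

/-- The blow-up rate. -/
theorem result (T : ℝ) (hT : 0 < T) (u : ℝ → Plane → ℂ) (G : ℝ → Fin 2 → Plane → ℂ)
    (hu : IsSolution T u G)
    (hB : ¬ ∃ D : ℝ, ∀ t ∈ Ico 0 T, l2norm (G t 0) ≤ D ∧ l2norm (G t 1) ≤ D) :
    ∃ s : ℝ, (s = 1 ∨ s = -1) ∧ ∀ K : ℝ, ∃ t₀ ∈ Ico 0 T, ∀ t ∈ Ico t₀ T,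
      K / (T - t₀) ≤ l2norm (fun x => G t 0 x + (s : ℂ) * G t 1 x) :=
  Pool.Agent.Lib.MP424d38.ES.bRTE T u G hT
    ⟨hu.memu, hu.memG, hu.weak, hu.contu, hu.contG, hu.eqn⟩ hB

end Pool.Agent.Results.MP_424d38_an.BlowupRate
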