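import Mathlib
import Pool.Agent.Lib.MP_424d38_an.ES.AllES

/-!
# MP_424d38_an: escape of mass at a blow-up of the hyperbolic cubic Schrödinger equation, `d = 2`

If an `H¹` solution of `i u_t + u_xx - u_zz + |u|² u = 0` in the plane blows up at `T < ∞` then, for one of the two null
coordinates `α = x - z` or `α = x + z`, an amount `ε` of mass, which depends only on the total mass `M`, lies outside every
moving strip `|α - y(t)| ≤ R` of fixed width, at times `t` arbitrarily close to `T`.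
-/

set_option autoImplicit false

open MeasureTheory Filter Topology Set
open scoped ENNReal

namespace Pool.Agent.Results.MP_424d38_an.MassEscape

/-- The plane; coordinate `0` is `x` (the transversal variable), coordinate `1` is `z`. -/
abbrev Plane := EuclideanSpace ℝ (Fin 2)

/-- `u ∈ C([0,T); H¹(ℝ²))` with weak partial derivatives `G t 0 = ∂_x u(t)`, `G t 1 = ∂_z u(t)`, and
`i ∂_t u + (∂_x² - ∂_z²) u + |u|² u = 0` weakly on `(0,T) × ℝ²`. -/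
structure IsSolution (T : ℝ) (u : ℝ → Plane → ℂ) (G : ℝ → Fin 2 → Plane → ℂ) : Prop where
  memu : ∀ t ∈ Ico 0 T, MemLp (u t) 2 volume
  memG : ∀ t ∈ Ico 0 T, ∀ j, MemLp (G t j) 2 volume
  weak : ∀ t ∈ Ico 0 T, ∀ j, ∀ ψ : Plane → ℂ,
    ContDiff ℝ ((⊤ : ℕ∞) : WithTop ℕ∞) ψ → HasCompactSupport ψ →
    ∫ x, u t x * fderiv ℝ ψ x (EuclideanSpace.single j (1 : ℝ)) = -∫ x, G t j x * ψ x
  contu : ∀ t ∈ Ico 0 T, Tendsto (fun s : ℝ => eLpNorm (u s - u t) 2 volume) (𝓝[Ico 0 T] t) (𝓝 0)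
  contG : ∀ t ∈ Ico 0 T, ∀ j,
    Tendsto (fun s : ℝ => eLpNorm (G s j - G t j) 2 volume) (𝓝[Ico 0 T] t) (𝓝 0)
  eqn : ∀ φ : ℝ → Plane → ℂ, ContDiff ℝ ((⊤ : ℕ∞) : WithTop ℕ∞) (Function.uncurry φ) →
    HasCompactSupport (Function.uncurry φ) → tsupport (Function.uncurry φ) ⊆ Ioo 0 T ×ˢ univ →
    ∫ t, ∫ x,
      (-Complex.I * u t x * deriv (fun s : ℝ => φ s x) t
       + u t x * ∑ j : Fin 2, (if (j : ℕ) + 1 = 2 then (-1 : ℂ) else 1) *
           fderiv ℝ (fun y => fderiv ℝ (φ t) y (EuclideanSpace.single j (1 : ℝ))) x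
             (EuclideanSpace.single j (1 : ℝ))
       + ((‖u t x‖ ^ 2 : ℝ) : ℂ) * u t x * φ t x) = 0

/-- The `L²(ℝ²)` norm. -/
noncomputable def l2norm (f : Plane → ℂ) : ℝ := (eLpNorm f 2 volume).toReal

/-- Escape of a fixed amount of mass from every moving strip of fixed width, in a null coordinate `x 0 - s x 1`. -/
theorem result (M : ℝ) : ∃ ε : ℝ, 0 < ε ∧
    ∀ (T : ℝ) (u : ℝ → Plane → ℂ) (G : ℝ → Fin 2 → Plane → ℂ), 0 < T → IsSolution T u G →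
      l2norm (u 0) ^ 2 = M → (¬ ∃ D : ℝ, ∀ t ∈ Ico 0 T, l2norm (G t 0) ≤ D ∧ l2norm (G t 1) ≤ D) →
      ∃ s : ℝ, (s = 1 ∨ s = -1) ∧ ∀ (R : ℝ) (y : ℝ → ℝ), ∃ᶠ t in 𝓝[<] T,
        ε ≤ ∫ x in {x : Plane | R < |x 0 - s * x 1 - y t|}, ‖u t x‖ ^ 2 := by
  obtain ⟨ε, hε, h⟩ := Pool.Agent.Lib.MP424d38.ES.bFI2 M
  refine ⟨ε, hε, fun T u G hT hu hM hD => ?_⟩
  obtain ⟨-, s, hs, -, -, h4⟩ := h T u G hT
    ⟨hu.memu, hu.memG, hu.weak, hu.contu, hu.contG, hu.eqn⟩ hM hD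
  exact ⟨s, hs, h4⟩

end Pool.Agent.Results.MP_424d38_an.MassEscape
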