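import Mathlib
import Pool.Agent.Lib.MP_424d38_an.All

/-!
# MP_424d38_an: `liminf ‖u(t)‖₄⁴ / (sup ‖(∂_x + ∂_z)u‖ · sup ‖(∂_x - ∂_z)u‖) = 0`, `d = 2`

The liminf is taken at the end of the life span `[0,T)` of any nonzero maximal `H¹` solution (blow-up at `T < ∞`,
or `T = ∞`), the suprema over `[0,t]`.
-/

set_option autoImplicit false

open MeasureTheory Filter Topology Set

namespace Pool.Agent.Results.MP_424d38_an.QuarticLiminf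

/-- The plane; coordinate `0` is `x` (the transversal variable), coordinate `1` is `z`. -/
abbrev Plane := EuclideanSpace ℝ (Fin 2)

/-- `u ∈ C([0,T); H¹(ℝ²))` with weak partial derivatives `G t 0 = ∂_x u(t)`, `G t 1 = ∂_z u(t)`, and
`i ∂_t u + (∂_x² - ∂_z²) u + |u|² u = 0` weakly on `(0,T) × ℝ²`. -/
structure IsSolution (T : ℝ) (u : ℝ → Plane → ℂ) (G : ℝ → Fin 2 → Plane → ℂ) : Prop where
  memu : ∀ t ∈ Ico 0 T, MemLp (u t) 2 volume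
  memG : ∀ t ∈ Ico 0 T, ∀ j, MemLp (G t j) 2 volume
  weak : ∀ t ∈ Ico 0 T, ∀ j, ∀ ψ : Plane → ℂ,
    ContDiff ℝ ((⊤ : ℕ∞) : WithTop ℕ∞) ψ → HasCompactSupport ψ →
    ∫ x, u t x * fderiv ℝ ψ x (EuclideanSpace.single j (1 : ℝ)) = -∫ x, G t j x * ψ x
  contu : ∀ t ∈ Ico 0 T, Tendsto (fun s : ℝ => eLpNorm (u s - u t) 2 volume) (𝓝[Ico 0 T] t) (𝓝 0)
  contG : ∀ t ∈ Ico 0 T, ∀ j,
    Tendsto (fun s : ℝ => eLpNorm (G s j - G t j) 2 volume) (𝓝[Ico 0 T] t) (𝓝 0)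
  eqn : ∀ φ : ℝ → Plane → ℂ, ContDiff ℝ ((⊤ : ℕ∞) : WithTop ℕ∞) (Function.uncurry φ) →
    HasCompactSupport (Function.uncurry φ) → tsupport (Function.uncurry φ) ⊆ Ioo 0 T ×ˢ univ →
    ∫ t, ∫ x,
      (-Complex.I * u t x * deriv (fun s : ℝ => φ s x) t
       + u t x * ∑ j : Fin 2, (if (j : ℕ) + 1 = 2 then (-1 : ℂ) else 1) *
           fderiv ℝ (fun y => fderiv ℝ (φ t) y (EuclideanSpace.single j (1 : ℝ))) x
             (EuclideanSpace.single j (1 : ℝ))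
       + ((‖u t x‖ ^ 2 : ℝ) : ℂ) * u t x * φ t x) = 0

/-- The `L²(ℝ²)` norm. -/
noncomputable def l2norm (f : Plane → ℂ) : ℝ := (eLpNorm f 2 volume).toReal

/-- A nonzero maximal solution on `[0,T)`, `0 < T ≤ ∞`: it solves the equation on every `[0,S)` with
`S ≤ T` finite, and either `T = ∞` or its gradient is unbounded on `[0,T)`. -/
structure IsMaximal (T : EReal) (u : ℝ → Plane → ℂ) (G : ℝ → Fin 2 → Plane → ℂ) : Prop where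
  pos : 0 < T
  sol : ∀ S : ℝ, 0 < S → (S : EReal) ≤ T → IsSolution S u G
  nonzero : l2norm (u 0) ≠ 0
  maximal : T = ⊤ ∨ ¬ ∃ D : ℝ, ∀ t : ℝ, 0 ≤ t → (t : EReal) < T →
    l2norm (G t 0) ≤ D ∧ l2norm (G t 1) ≤ D

/-- For every `κ > 0` there are times `t` arbitrarily close to `T` (arbitrarily large if `T = ∞`) and
`s, s' ∈ [0,t]` with `‖u(t)‖₄⁴ < κ ‖(∂_x + ∂_z)u(s)‖ ‖(∂_x - ∂_z)u(s')‖`. -/
theorem result (T : EReal) (u : ℝ → Plane → ℂ) (G : ℝ → Fin 2 → Plane → ℂ)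
    (hu : IsMaximal T u G) (κ : ℝ) (hκ : 0 < κ) (t₀ : ℝ) (ht₀ : (t₀ : EReal) < T) :
    ∃ t : ℝ, 0 ≤ t ∧ t₀ < t ∧ (t : EReal) < T ∧ ∃ s ∈ Icc 0 t, ∃ s' ∈ Icc 0 t,
      ∫ x, ‖u t x‖ ^ 4 < κ * (l2norm (G s 0 + G s 1) * l2norm (G s' 0 - G s' 1)) := by
  have hconv : ∀ S : ℝ, 0 < S → (S : EReal) ≤ T →
      Pool.Agent.Lib.MP424d38.TY.H1Sol S u G := fun S hS hST =>
    let h := hu.sol S hS hST
    ⟨h.memu, h.memG, h.weak, h.contu, h.contG, h.eqn⟩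
  rcases eq_or_ne T ⊤ with hT | hT
  · obtain ⟨t, h0, h1, s, hs, s', hs', h⟩ := Pool.Agent.Lib.MP424d38.TY.aFIN.2.2.2 u G
      (fun S hS => hconv S hS (by rw [hT]; exact le_top)) hu.nonzero κ t₀ hκ
    exact ⟨t, h0, h1, by rw [hT]; exact EReal.coe_lt_top t, s, hs, s', hs', h⟩
  · have hbot : T ≠ ⊥ := fun h => absurd hu.pos (by rw [h]; exact not_lt_bot)
    obtain ⟨R, rfl⟩ : ∃ R : ℝ, (R : EReal) = T := ⟨T.toReal, EReal.coe_toReal hT hbot⟩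
    have hR : 0 < R := EReal.coe_pos.1 hu.pos
    have hmax := hu.maximal.resolve_left hT
    obtain ⟨t, ht, h1, s, hs, s', hs', h⟩ := Pool.Agent.Lib.MP424d38.TY.aFIN.2.2.1 R u G hR
      (hconv R hR le_rfl) hu.nonzero
      (fun ⟨D, hD⟩ => hmax ⟨D, fun t h0 h1 => hD t ⟨h0, EReal.coe_lt_coe_iff.1 h1⟩⟩) κ t₀ hκ
      (EReal.coe_lt_coe_iff.1 ht₀)
    exact ⟨t, ht.1, h1, EReal.coe_lt_coe_iff.2 ht.2, s, hs, s', hs', h⟩

end Pool.Agent.Results.MP_424d38_an.QuarticLiminf
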